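import Pool.Agent.W254.LF.Stm3

/-!
# LF3-EDET: the determinant of a matrix of power series
-/

set_option autoImplicit false

namespace Pool.Agent.W515.LF

open Pool.Agent.W254.LF Finset.HasAntidiagonal

variable {p : ℕ} [Fact p.Prime]

/-- `F` is given by a power series of degree at most `d` modulo the maximal ideal, with coefficient
congruent to `c` in degree `d` -/
def Rep (d : ℕ) (c : ℂ_[p]) (F : ℂ_[p] → ℂ_[p]) : Prop :=
  ∃ f : ℕ → ℂ_[p], (Summable fun k => ‖f k‖) ∧ (∀ k, ‖f k‖ ≤ 1) ∧ (∀ k, d < k → ‖f k‖ < 1) ∧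
    ‖f d - c‖ < 1 ∧ ∀ s : ℂ_[p], ‖s‖ ≤ 1 → ∑' k, f k * s ^ k = F s

theorem norm_sum_lt {ι : Type} (s : Finset ι) (f : ι → ℂ_[p]) (h : ∀ i ∈ s, ‖f i‖ < 1) :
    ‖∑ i ∈ s, f i‖ < 1 := by
  classical
  induction s using Finset.induction_on with
  | empty => simp
  | insert a s ha ih =>
    rw [Finset.sum_insert ha]
    refine (IsUltrametricDist.norm_add_le_max _ _).trans_lt (max_lt ?_ ?_)
    · exact h a (Finset.mem_insert_self a s)
    · exact ih fun i hi => h i (Finset.mem_insert_of_mem hi)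

theorem norm_sum_le {ι : Type} (s : Finset ι) (f : ι → ℂ_[p]) (h : ∀ i ∈ s, ‖f i‖ ≤ 1) :
    ‖∑ i ∈ s, f i‖ ≤ 1 := by
  classical
  induction s using Finset.induction_on with
  | empty => simp
  | insert a s ha ih =>
    rw [Finset.sum_insert ha]
    refine (IsUltrametricDist.norm_add_le_max _ _).trans (max_le ?_ ?_)
    · exact h a (Finset.mem_insert_self a s)
    · exact ih fun i hi => h i (Finset.mem_insert_of_mem hi)

theorem summable_mul_pow {f : ℕ → ℂ_[p]} (hf : Summable fun k => ‖f k‖) {s : ℂ_[p]}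
    (hs : ‖s‖ ≤ 1) : Summable fun k => ‖f k * s ^ k‖ := by
  refine Summable.of_nonneg_of_le (fun k => norm_nonneg _) (fun k => ?_) hf
  rw [norm_mul, norm_pow]
  exact mul_le_of_le_one_right (norm_nonneg _) (pow_le_one₀ (norm_nonneg _) hs)

theorem mul_lt_of {x y : ℂ_[p]} (hx : ‖x‖ ≤ 1) (hy : ‖y‖ < 1) : ‖x * y‖ < 1 := by
  rw [norm_mul]
  calc ‖x‖ * ‖y‖ ≤ 1 * ‖y‖ := mul_le_mul_of_nonneg_right hx (norm_nonneg _)
    _ = ‖y‖ := one_mul _
    _ < 1 := hy

theorem mul_lt_of' {x y : ℂ_[p]} (hx : ‖x‖ < 1) (hy : ‖y‖ ≤ 1) : ‖x * y‖ < 1 := by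
  rw [mul_comm]
  exact mul_lt_of hy hx

theorem Rep.mul {d e : ℕ} {c c' : ℂ_[p]} {F G : ℂ_[p] → ℂ_[p]} (hF : Rep d c F)
    (hG : Rep e c' G) : Rep (d + e) (c * c') (fun s => F s * G s) := by
  obtain ⟨f, f1, f2, f3, f4, f5⟩ := hF
  obtain ⟨g, g1, g2, g3, g4, g5⟩ := hG
  have hc' : ‖c'‖ ≤ 1 := by
    have h1 : c' = g e + -(g e - c') := by ring
    rw [h1]
    refine (IsUltrametricDist.norm_add_le_max _ _).trans (max_le (g2 e) ?_)
    rw [norm_neg]
    exact g4.le
  have hle : ∀ i j, ‖f i * g j‖ ≤ 1 := by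
    intro i j
    rw [norm_mul]
    exact mul_le_one₀ (f2 i) (norm_nonneg _) (g2 j)
  have hlt : ∀ i j, d < i ∨ e < j → ‖f i * g j‖ < 1 := by
    rintro i j (h | h)
    · exact mul_lt_of' (f3 i h) (g2 j)
    · exact mul_lt_of (f2 i) (g3 j h)
  refine ⟨fun k => ∑ x ∈ antidiagonal k, f x.1 * g x.2, ?_, ?_, ?_, ?_, ?_⟩
  · exact summable_norm_sum_mul_antidiagonal_of_summable_norm f1 g1
  · intro k
    exact norm_sum_le _ _ fun x _ => hle _ _
  · intro k hk
    refine norm_sum_lt _ _ fun x hx => hlt _ _ ?_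
    rw [Finset.HasAntidiagonal.mem_antidiagonal] at hx
    omega
  · have h1 : (d, e) ∈ antidiagonal (d + e) := Finset.HasAntidiagonal.mem_antidiagonal.2 rfl
    show ‖∑ x ∈ antidiagonal (d + e), f x.1 * g x.2 - c * c'‖ < 1
    rw [← Finset.add_sum_erase _ _ h1]
    have h2 : f (d, e).1 * g (d, e).2 + ∑ x ∈ (antidiagonal (d + e)).erase (d, e), f x.1 * g x.2 -
        c * c' = (f d * (g e - c') + (f d - c) * c') +
          ∑ x ∈ (antidiagonal (d + e)).erase (d, e), f x.1 * g x.2 := by ring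
    rw [h2]
    refine (IsUltrametricDist.norm_add_le_max _ _).trans_lt (max_lt ?_ ?_)
    · refine (IsUltrametricDist.norm_add_le_max _ _).trans_lt (max_lt ?_ ?_)
      · exact mul_lt_of (f2 d) g4
      · exact mul_lt_of' f4 hc'
    · refine norm_sum_lt _ _ fun x hx => hlt _ _ ?_
      rw [Finset.mem_erase, Finset.HasAntidiagonal.mem_antidiagonal] at hx
      obtain ⟨h3, h4⟩ := hx
      by_contra hcon
      push Not at hcon
      apply h3
      ext
      · show x.1 = d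
        omega
      · show x.2 = e
        omega
  · intro s hs
    show ∑' k, (∑ x ∈ antidiagonal k, f x.1 * g x.2) * s ^ k = F s * G s
    rw [← f5 s hs, ← g5 s hs, tsum_mul_tsum_eq_tsum_sum_antidiagonal_of_summable_norm
      (summable_mul_pow f1 hs) (summable_mul_pow g1 hs)]
    refine tsum_congr fun n => ?_
    rw [Finset.sum_mul]
    refine Finset.sum_congr rfl fun x hx => ?_
    rw [Finset.HasAntidiagonal.mem_antidiagonal] at hx
    rw [← hx, pow_add]
    ring

theorem Rep.one : Rep (p := p) 0 1 (fun _ => 1) := by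
  refine ⟨fun k => if k = 0 then 1 else 0, ?_, ?_, ?_, ?_, ?_⟩
  · refine summable_of_ne_finset_zero (s := {0}) fun k hk => ?_
    rw [Finset.mem_singleton] at hk
    simp [hk]
  · intro k
    show ‖(if k = 0 then (1 : ℂ_[p]) else 0)‖ ≤ 1
    split <;> simp
  · intro k hk
    simp [hk.ne']
  · simp
  · intro s _
    rw [tsum_eq_single 0]
    · simp
    · intro k hk
      simp [hk]

theorem Rep.zero (d : ℕ) : Rep (p := p) d 0 (fun _ => 0) := by
  refine ⟨fun _ => 0, ?_, ?_, ?_, ?_, ?_⟩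
  · simp
  · simp
  · simp
  · simp
  · simp

theorem Rep.add {d : ℕ} {c c' : ℂ_[p]} {F G : ℂ_[p] → ℂ_[p]} (hF : Rep d c F)
    (hG : Rep d c' G) : Rep d (c + c') (fun s => F s + G s) := by
  obtain ⟨f, f1, f2, f3, f4, f5⟩ := hF
  obtain ⟨g, g1, g2, g3, g4, g5⟩ := hG
  refine ⟨fun k => f k + g k, ?_, ?_, ?_, ?_, ?_⟩
  · exact Summable.of_nonneg_of_le (fun k => norm_nonneg _) (fun k => norm_add_le _ _) (f1.add g1)
  · intro k
    exact (IsUltrametricDist.norm_add_le_max _ _).trans (max_le (f2 k) (g2 k))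
  · intro k hk
    exact (IsUltrametricDist.norm_add_le_max _ _).trans_lt (max_lt (f3 k hk) (g3 k hk))
  · have h1 : f d + g d - (c + c') = (f d - c) + (g d - c') := by ring
    show ‖f d + g d - (c + c')‖ < 1
    rw [h1]
    exact (IsUltrametricDist.norm_add_le_max _ _).trans_lt (max_lt f4 g4)
  · intro s hs
    show ∑' k, (f k + g k) * s ^ k = F s + G s
    rw [← f5 s hs, ← g5 s hs, ← Summable.tsum_add (summable_mul_pow f1 hs).of_norm
      (summable_mul_pow g1 hs).of_norm]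
    refine tsum_congr fun n => ?_
    ring

theorem Rep.neg {d : ℕ} {c : ℂ_[p]} {F : ℂ_[p] → ℂ_[p]} (hF : Rep d c F) :
    Rep d (-c) (fun s => -F s) := by
  obtain ⟨f, f1, f2, f3, f4, f5⟩ := hF
  refine ⟨fun k => -f k, ?_, ?_, ?_, ?_, ?_⟩
  · simpa using f1
  · intro k
    rw [norm_neg]
    exact f2 k
  · intro k hk
    rw [norm_neg]
    exact f3 k hk
  · have h1 : -f d - -c = -(f d - c) := by ring
    show ‖-f d - -c‖ < 1
    rw [h1, norm_neg]
    exact f4
  · intro s hs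
    show ∑' k, -f k * s ^ k = -F s
    rw [← f5 s hs, ← tsum_neg]
    refine tsum_congr fun n => ?_
    ring

theorem Rep.sum {ι : Type} (s : Finset ι) {d : ℕ} (c : ι → ℂ_[p]) (F : ι → ℂ_[p] → ℂ_[p])
    (h : ∀ i, Rep d (c i) (F i)) : Rep d (∑ i ∈ s, c i) (fun x => ∑ i ∈ s, F i x) := by
  classical
  induction s using Finset.induction_on with
  | empty => simpa using Rep.zero d
  | insert a s ha ih =>
    simp only [Finset.sum_insert ha]
    exact (h a).add ih

theorem Rep.prod {ι : Type} (s : Finset ι) (c : ι → ℂ_[p]) (F : ι → ℂ_[p] → ℂ_[p])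
    (h : ∀ i, Rep 1 (c i) (F i)) : Rep s.card (∏ i ∈ s, c i) (fun x => ∏ i ∈ s, F i x) := by
  classical
  induction s using Finset.induction_on with
  | empty => simpa using Rep.one
  | insert a s ha ih =>
    simp only [Finset.prod_insert ha]
    rw [Finset.card_insert_of_notMem ha, add_comm]
    exact (h a).mul ih

theorem Rep.sign {d : ℕ} {c : ℂ_[p]} {F : ℂ_[p] → ℂ_[p]} (hF : Rep d c F) (ε : ℤˣ) :
    Rep d (ε • c) (fun s => ε • F s) := by
  rcases Int.units_eq_one_or ε with rfl | rfl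
  · simpa using hF
  · simpa using hF.neg

theorem t_EDET : S_EDET := by
  intro p _ m B N h1 h2 h3 _ h5
  have hB : ∀ i j, Rep 1 (N i j) (fun s => ∑' k, B i j k * s ^ k) := fun i j =>
    ⟨B i j, h1 i j, h2 i j, fun k hk => h3 i j k hk, h5 i j, fun _ _ => rfl⟩
  have hdet : Rep m N.det (fun s => (Matrix.of fun i j : Fin m => ∑' k, B i j k * s ^ k).det) := by
    have h6 : ∀ σ : Equiv.Perm (Fin m), Rep m (Equiv.Perm.sign σ • ∏ i, N (σ i) i)
        (fun s => Equiv.Perm.sign σ • ∏ i, ∑' k, B (σ i) i k * s ^ k) := by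
      intro σ
      have h7 := Rep.prod Finset.univ (fun i => N (σ i) i)
        (fun i s => ∑' k, B (σ i) i k * s ^ k) (fun i => hB (σ i) i)
      rw [Finset.card_univ, Fintype.card_fin] at h7
      exact h7.sign _
    have h8 := Rep.sum Finset.univ _ _ h6
    simp only [Matrix.det_apply, Matrix.of_apply]
    exact h8
  obtain ⟨f, f1, f2, f3, f4, f5⟩ := hdet
  exact ⟨f, f1, f2, f3, f4, f5⟩

end Pool.Agent.W515.LF
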